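import Pool.Agent.H34.RB.DEL

/-! SMO: deletion of many primes. -/

set_option autoImplicit false

namespace Pool.Agent.H38.RB

theorem smo_ht_two {x : Fin 3 → ℤ} (hx : Adm x) : 2 ≤ ht x := by
  by_contra h
  have h1 := del_ht_pos hx
  have hH : ht x = 1 := by omega
  have h0 : (x 0).natAbs ≤ 1 := by rw [← hH]; exact le_max_left _ _
  have h2 : (x 1).natAbs ≤ 1 := by rw [← hH]; exact (le_max_left _ _).trans (le_max_right _ _)
  have h3 : (x 2).natAbs ≤ 1 := by rw [← hH]; exact (le_max_right _ _).trans (le_max_right _ _)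
  have e0 := hx.1 0
  have e1 := hx.1 1
  have e2 := hx.1 2
  have es := hx.2.2
  omega

/-- logarithm of the `T`-part -/
theorem smo_log_tp (T : Finset ℕ) (hT : ∀ p ∈ T, p.Prime) (m : ℕ) :
    Real.log (tp T m : ℝ) = ∑ p ∈ T, (m.factorization p : ℝ) * Real.log p := by
  unfold tp
  push_cast
  rw [Real.log_prod]
  · exact Finset.sum_congr rfl fun p _ => Real.log_pow _ _
  · intro p hp
    have := (hT p hp).pos
    positivity

theorem smo_tp_pos (T : Finset ℕ) (hT : ∀ p ∈ T, p.Prime) (m : ℕ) : 0 < (tp T m : ℝ) := by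
  unfold tp
  push_cast
  exact Finset.prod_pos fun p hp => by
    have := (hT p hp).pos
    positivity

theorem SMO (hG : T_GRD) : T_SMO := by
  intro κ τ y T x hκ hτ hτ1 hy hT hTy hx
  obtain ⟨hA, hle⟩ := hx
  have hH2 : (2 : ℝ) ≤ ht x := by exact_mod_cast smo_ht_two hA
  obtain ⟨H, hH⟩ : ∃ H : ℝ, H = (ht x : ℝ) := ⟨_, rfl⟩
  rw [← hH] at hH2 hle
  have hH0 : 0 < H := by linarith
  have hlog : 0 < Real.log H := Real.log_pos (by linarith)
  have hu0 : ∀ p ∈ T, 0 ≤ ((pr x).factorization p : ℝ) * Real.log p / Real.log H := by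
    intro p hp
    have h1 : (1 : ℝ) ≤ p := by exact_mod_cast (hT p hp).one_lt.le
    exact div_nonneg (mul_nonneg (Nat.cast_nonneg _) (Real.log_nonneg h1)) hlog.le
  have hsum : ∑ p ∈ T, ((pr x).factorization p : ℝ) * Real.log p / Real.log H ≤ 3 := by
    rw [← Finset.sum_div, ← smo_log_tp T hT, div_le_iff₀ hlog]
    have h1 : (tp T (pr x) : ℝ) ≤ H ^ 3 := by
      have h2 := (del_tp_le T hT (del_pr_ne hA)).trans (del_pr_le x)
      rw [hH]
      exact_mod_cast h2
    have h3 := Real.log_le_log (smo_tp_pos T hT _) h1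
    rw [Real.log_pow] at h3
    push_cast at h3
    linarith
  obtain ⟨D, hDT, hD1, hD2⟩ := hG T
    (fun p => ((pr x).factorization p : ℝ) * Real.log p / Real.log H) (fun p => Real.log p) 3
    (Real.log y) τ hu0
    (fun p hp => Real.log_pos (by exact_mod_cast (hT p hp).one_lt))
    (fun p hp => Real.log_le_log (by exact_mod_cast (hT p hp).pos) (hTy p hp))
    (Real.log_nonneg (by linarith)) hsum (by norm_num) hτ.le (by linarith)
  have hTD : ∀ p ∈ D, p.Prime := fun p hp => hT p (hDT hp)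
  refine ⟨D, hDT, ⟨hA, ?_⟩, ?_⟩
  · rw [← hH]
    have h1 : (tp T (pr x) : ℝ) = (tp D (pr x) : ℝ) * (tp (T \ D) (pr x) : ℝ) := by
      have : tp T (pr x) = tp D (pr x) * tp (T \ D) (pr x) := by
        unfold tp
        rw [mul_comm]
        exact (Finset.prod_sdiff hDT).symm
      rw [this]
      push_cast
      ring
    have h2 : (tp D (pr x) : ℝ) ≤ H ^ τ := by
      have h3 := hD1
      rw [← Finset.sum_div, ← smo_log_tp D hTD, div_le_iff₀ hlog] at h3
      rw [← Real.log_le_log_iff (smo_tp_pos D hTD _) (Real.rpow_pos_of_pos hH0 _),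
        Real.log_rpow hH0]
      exact h3
    calc (pr x : ℝ) ≤ H ^ κ * (tp T (pr x) : ℝ) := hle
      _ = (H ^ κ * (tp D (pr x) : ℝ)) * (tp (T \ D) (pr x) : ℝ) := by rw [h1]; ring
      _ ≤ (H ^ κ * H ^ τ) * (tp (T \ D) (pr x) : ℝ) := by
          refine mul_le_mul_of_nonneg_right ?_ (Nat.cast_nonneg _)
          exact mul_le_mul_of_nonneg_left h2 (Real.rpow_nonneg hH0.le _)
      _ = H ^ (κ + τ) * (tp (T \ D) (pr x) : ℝ) := by rw [Real.rpow_add hH0]
  · have hlp : ∀ S : Finset ℕ, (∀ p ∈ S, p.Prime) →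
        Real.log ((∏ p ∈ S, p : ℕ) : ℝ) = ∑ p ∈ S, Real.log p := by
      intro S hS
      push_cast
      rw [Real.log_prod]
      intro p hp
      exact_mod_cast (hS p hp).ne_zero
    have hpos : ∀ S : Finset ℕ, (∀ p ∈ S, p.Prime) → (0 : ℝ) < ((∏ p ∈ S, p : ℕ) : ℝ) := by
      intro S hS
      exact_mod_cast Finset.prod_pos fun p hp => (hS p hp).pos
    rw [← Real.log_le_log_iff (Real.rpow_pos_of_pos (hpos T hT) _)
      (mul_pos (by linarith) (hpos D hTD)), Real.log_rpow (hpos T hT),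
      Real.log_mul (by linarith) (hpos D hTD).ne', hlp T hT, hlp D hTD]
    linarith

end Pool.Agent.H38.RB
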