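import Pool.Agent.H86.RB.SMO

/-! CELL: few cells contain all solutions of large height. -/

set_option autoImplicit false

open Finset

namespace Pool.Agent.H38.RB

/-- number of vectors of natural numbers with sum at most `N` -/
theorem cell_count {ι : Type} [Fintype ι] [DecidableEq ι] (N : ℕ) :
    ((((Fintype.piFinset fun _ : ι => range (N + 1)).filter fun a => ∑ i, a i ≤ N).card : ℕ) : ℝ) ≤
      2 ^ N * 2 ^ Fintype.card ι := by
  have h1 : ∀ a ∈ (Fintype.piFinset fun _ : ι => range (N + 1)).filter (fun a => ∑ i, a i ≤ N),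
      (1 : ℝ) ≤ 2 ^ N * ∏ i, (1 / (2 : ℝ)) ^ a i := by
    intro a ha
    have h2 := (mem_filter.1 ha).2
    rw [prod_pow_eq_pow_sum, one_div, inv_pow]
    rw [← div_eq_mul_inv, one_le_div (by positivity)]
    exact pow_le_pow_right₀ (by norm_num) h2
  calc ((((Fintype.piFinset fun _ : ι => range (N + 1)).filter
        fun a => ∑ i, a i ≤ N).card : ℕ) : ℝ)
      = ∑ _a ∈ (Fintype.piFinset fun _ : ι => range (N + 1)).filter
          (fun a => ∑ i, a i ≤ N), (1 : ℝ) := by simp
    _ ≤ ∑ a ∈ (Fintype.piFinset fun _ : ι => range (N + 1)).filter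
          (fun a => ∑ i, a i ≤ N), 2 ^ N * ∏ i, (1 / (2 : ℝ)) ^ a i := sum_le_sum h1
    _ ≤ ∑ a ∈ Fintype.piFinset fun _ : ι => range (N + 1), 2 ^ N * ∏ i, (1 / (2 : ℝ)) ^ a i :=
        sum_le_sum_of_subset_of_nonneg (filter_subset _ _) fun _ _ _ => by positivity
    _ = 2 ^ N * ∏ _i : ι, ∑ j ∈ range (N + 1), (1 / (2 : ℝ)) ^ j := by
        rw [← mul_sum, prod_univ_sum]
    _ ≤ 2 ^ N * ∏ _i : ι, (2 : ℝ) := by
        refine mul_le_mul_of_nonneg_left ?_ (by positivity)
        exact prod_le_prod (fun _ _ => by positivity) fun _ _ => sum_geometric_two_le _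
    _ = _ := by rw [prod_const, card_univ]

/-- a prime divides at most one entry -/
theorem cell_sigma {x : Fin 3 → ℤ} (hx : Adm x) {p : ℕ} (hp : p.Prime) :
    ∃ i : Fin 3, (pr x).factorization p = (x i).natAbs.factorization p := by
  have h0 := hx.1
  have hne : ∀ i, (x i).natAbs ≠ 0 := fun i => Int.natAbs_ne_zero.2 (h0 i)
  have hpr : (pr x).factorization p = (x 0).natAbs.factorization p +
      (x 1).natAbs.factorization p + (x 2).natAbs.factorization p := by
    unfold pr
    rw [Int.natAbs_mul, Int.natAbs_mul, Nat.factorization_mul (mul_ne_zero (hne 0) (hne 1)) (hne 2),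
      Nat.factorization_mul (hne 0) (hne 1)]
    rfl
  have hz : ∀ i j, i ≠ j → (x i).natAbs.factorization p ≠ 0 →
      (x j).natAbs.factorization p = 0 := by
    intro i j hij hi
    have h1 : p ∣ (x i).natAbs := Nat.dvd_of_factorization_pos hi
    apply Nat.factorization_eq_zero_of_not_dvd
    intro h2
    have h3 : Nat.Coprime (x i).natAbs (x j).natAbs := Int.isCoprime_iff_gcd_eq_one.1
      (hx.2.1 i j hij)
    exact Nat.not_coprime_of_dvd_of_dvd hp.one_lt h1 h2 h3
  by_cases c0 : (x 0).natAbs.factorization p = 0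
  · by_cases c1 : (x 1).natAbs.factorization p = 0
    · exact ⟨2, by rw [hpr, c0, c1]; simp⟩
    · refine ⟨1, ?_⟩
      rw [hpr, c0, hz 1 2 (by decide) c1]
      simp
  · refine ⟨0, ?_⟩
    rw [hpr, hz 0 1 (by decide) c0, hz 0 2 (by decide) c0]
    simp

theorem cell_tri {A B C : ℕ} (h1 : A ≤ B) (h2 : A ≤ C) (h3 : B ≤ A + C) (h4 : C ≤ A + B) :
    B * C ≤ (max B C) ^ 2 ∧ (max B C) ^ 2 ≤ 2 * (B * C) := by
  rcases le_total B C with h | h
  · rw [max_eq_right h]
    constructor
    · rw [pow_two]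
      exact Nat.mul_le_mul_right _ h
    · have : C ≤ 2 * B := by omega
      calc C ^ 2 = C * C := pow_two C
        _ ≤ 2 * B * C := Nat.mul_le_mul_right _ this
        _ = 2 * (B * C) := by ring
  · rw [max_eq_left h]
    constructor
    · rw [pow_two]
      exact Nat.mul_le_mul_left _ h
    · have : B ≤ 2 * C := by omega
      calc B ^ 2 = B * B := pow_two B
        _ ≤ B * (2 * C) := Nat.mul_le_mul_left _ this
        _ = 2 * (B * C) := by ring

/-- the smallest entry -/
theorem cell_tau {x : Fin 3 → ℤ} (hx : Adm x) : ∃ i : Fin 3, 1 ≤ (x i).natAbs ∧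
    (x i).natAbs ≤ ht x ∧ pr x ≤ (x i).natAbs * ht x ^ 2 ∧
    (x i).natAbs * ht x ^ 2 ≤ 2 * pr x := by
  have e0 : 1 ≤ (x 0).natAbs := Nat.one_le_iff_ne_zero.2 (Int.natAbs_ne_zero.2 (hx.1 0))
  have e1 : 1 ≤ (x 1).natAbs := Nat.one_le_iff_ne_zero.2 (Int.natAbs_ne_zero.2 (hx.1 1))
  have e2 : 1 ≤ (x 2).natAbs := Nat.one_le_iff_ne_zero.2 (Int.natAbs_ne_zero.2 (hx.1 2))
  have es := hx.2.2
  have hp : pr x = (x 0).natAbs * (x 1).natAbs * (x 2).natAbs := by
    unfold pr
    rw [Int.natAbs_mul, Int.natAbs_mul]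
  have hH : ht x = max (x 0).natAbs (max (x 1).natAbs (x 2).natAbs) := rfl
  have s0 : (x 0).natAbs ≤ (x 1).natAbs + (x 2).natAbs := by omega
  have s1 : (x 1).natAbs ≤ (x 0).natAbs + (x 2).natAbs := by omega
  have s2 : (x 2).natAbs ≤ (x 0).natAbs + (x 1).natAbs := by omega
  rw [hp, hH]
  by_cases c0 : (x 0).natAbs ≤ (x 1).natAbs ∧ (x 0).natAbs ≤ (x 2).natAbs
  · obtain ⟨k1, k2⟩ := cell_tri c0.1 c0.2 s1 s2
    have hm : max (x 0).natAbs (max (x 1).natAbs (x 2).natAbs) =
        max (x 1).natAbs (x 2).natAbs := max_eq_right (c0.1.trans (le_max_left _ _))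
    refine ⟨0, e0, le_max_left _ _, ?_, ?_⟩
    · rw [hm, mul_assoc]
      exact Nat.mul_le_mul_left _ k1
    · rw [hm]
      calc (x 0).natAbs * (max (x 1).natAbs (x 2).natAbs) ^ 2 ≤
          (x 0).natAbs * (2 * ((x 1).natAbs * (x 2).natAbs)) := Nat.mul_le_mul_left _ k2
        _ = _ := by ring
  · by_cases c1 : (x 1).natAbs ≤ (x 0).natAbs ∧ (x 1).natAbs ≤ (x 2).natAbs
    · obtain ⟨k1, k2⟩ := cell_tri c1.1 c1.2 s0 (by omega)
      have hm : max (x 0).natAbs (max (x 1).natAbs (x 2).natAbs) =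
          max (x 0).natAbs (x 2).natAbs := by omega
      refine ⟨1, e1, (le_max_left _ _).trans (le_max_right _ _), ?_, ?_⟩
      · rw [hm]
        calc (x 0).natAbs * (x 1).natAbs * (x 2).natAbs =
            (x 1).natAbs * ((x 0).natAbs * (x 2).natAbs) := by ring
          _ ≤ _ := Nat.mul_le_mul_left _ k1
      · rw [hm]
        calc (x 1).natAbs * (max (x 0).natAbs (x 2).natAbs) ^ 2 ≤
            (x 1).natAbs * (2 * ((x 0).natAbs * (x 2).natAbs)) := Nat.mul_le_mul_left _ k2
          _ = _ := by ring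
    · have c2 : (x 2).natAbs ≤ (x 0).natAbs ∧ (x 2).natAbs ≤ (x 1).natAbs := by omega
      obtain ⟨k1, k2⟩ := cell_tri c2.1 c2.2 (by omega) (by omega)
      have hm : max (x 0).natAbs (max (x 1).natAbs (x 2).natAbs) =
          max (x 0).natAbs (x 1).natAbs := by omega
      refine ⟨2, e2, (le_max_right _ _).trans (le_max_right _ _), ?_, ?_⟩
      · rw [hm]
        calc (x 0).natAbs * (x 1).natAbs * (x 2).natAbs =
            (x 2).natAbs * ((x 0).natAbs * (x 1).natAbs) := by ring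
          _ ≤ _ := Nat.mul_le_mul_left _ k1
      · rw [hm]
        calc (x 2).natAbs * (max (x 0).natAbs (x 1).natAbs) ^ 2 ≤
            (x 2).natAbs * (2 * ((x 0).natAbs * (x 1).natAbs)) := Nat.mul_le_mul_left _ k2
          _ = _ := by ring

open Classical in
/-- the data of a cell from its index -/
noncomputable def mkCD (T : Finset ℕ) (η : ℝ) (i : (T → Fin 3) × Fin 3 × (Option T → ℕ)) : CD where
  σ p := if h : p ∈ T then i.1 ⟨p, h⟩ else 0
  τ := i.2.1
  W p := if h : p ∈ T then i.2.2 (some ⟨p, h⟩) * η else 0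
  w := i.2.2 none * η

theorem CELL : T_CELL := by
  classical
  intro κ hκ0 hκ1
  obtain ⟨M, hM⟩ : ∃ M : ℕ, 12 / (1 - κ) ≤ M := exists_nat_ge _
  have hκ' : 0 < 1 - κ := by linarith
  refine ⟨6 * 2 ^ M, Real.exp (4 * Real.log 2 / (1 - κ)), ?_, ?_⟩
  · have : (1 : ℝ) ≤ 2 ^ M := one_le_pow₀ (by norm_num)
    linarith
  intro T hT
  obtain ⟨s, hs⟩ : ∃ s : ℕ, s = T.card + 1 := ⟨_, rfl⟩
  have hs0 : (0 : ℝ) < s := by rw [hs]; positivity
  obtain ⟨η, hη⟩ : ∃ η : ℝ, η = (1 - κ) / (4 * s) := ⟨_, rfl⟩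
  have hη0 : 0 < η := by rw [hη]; positivity
  have hηs : s * η = (1 - κ) / 4 := by rw [hη]; field_simp
  have hηN : 3 ≤ ((M * s : ℕ) : ℝ) * η := by
    push_cast
    rw [mul_assoc, hηs]
    have h1 : 12 / (1 - κ) * ((1 - κ) / 4) = 3 := by field_simp; norm_num
    rw [← h1]
    exact mul_le_mul_of_nonneg_right hM (by linarith)
  set 𝒜 : Finset ((T → Fin 3) × Fin 3 × (Option T → ℕ)) :=
    (univ : Finset (T → Fin 3)) ×ˢ (univ : Finset (Fin 3)) ×ˢ
      ((Fintype.piFinset fun _ : Option T => range (M * s + 1)).filter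
        fun a => ∑ i, a i ≤ M * s) with h𝒜
  refine ⟨(𝒜.image (mkCD T η)).filter fun c => c.Good T ((1 - κ) / 2), ?_, ?_, ?_⟩
  · -- the number of cells
    have h1 : (((𝒜.image (mkCD T η)).filter fun c => c.Good T ((1 - κ) / 2)).card : ℝ) ≤
        (𝒜.card : ℝ) := by
      exact_mod_cast (card_filter_le _ _).trans card_image_le
    refine h1.trans ?_
    rw [h𝒜, card_product, card_product, card_univ, card_univ, Fintype.card_fun, Fintype.card_fin,
      Fintype.card_coe]
    push_cast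
    have h2 := cell_count (ι := Option T) (M * s)
    rw [Fintype.card_option, Fintype.card_coe, ← hs] at h2
    calc (3 : ℝ) ^ T.card * (3 * _) ≤ 3 ^ T.card * (3 * (2 ^ (M * s) * 2 ^ s)) := by
          refine mul_le_mul_of_nonneg_left ?_ (by positivity)
          exact mul_le_mul_of_nonneg_left h2 (by norm_num)
      _ = (6 * 2 ^ M) ^ (T.card + 1) := by
          rw [← hs, mul_pow, ← pow_mul, show (6 : ℝ) = 3 * 2 by norm_num, mul_pow]
          rw [show (3 : ℝ) ^ s = 3 ^ T.card * 3 by rw [hs, pow_succ]]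
          ring
  · intro c hc
    exact (mem_filter.1 hc).2
  · -- covering
    intro x hx hHx
    obtain ⟨hA, hle⟩ := hx
    have hH2 : (2 : ℝ) ≤ ht x := by exact_mod_cast smo_ht_two hA
    obtain ⟨τ, hτ1, hτH, hpr1, hpr2⟩ := cell_tau hA
    obtain ⟨H, hH⟩ : ∃ H : ℝ, H = (ht x : ℝ) := ⟨_, rfl⟩
    rw [← hH] at hH2 hle hHx
    have hH0 : 0 < H := by linarith
    have hlog : 0 < Real.log H := Real.log_pos (by linarith)
    have hlog2 : 4 * Real.log 2 / (1 - κ) ≤ Real.log H := by
      rw [← Real.log_exp (4 * Real.log 2 / (1 - κ))]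
      exact Real.log_le_log (Real.exp_pos _) hHx
    obtain ⟨m, hm⟩ : ∃ m : ℝ, m = ((x τ).natAbs : ℝ) := ⟨_, rfl⟩
    have hm1 : 1 ≤ m := by rw [hm]; exact_mod_cast hτ1
    have hmH : m ≤ H := by rw [hm, hH]; exact_mod_cast hτH
    have hm0 : 0 < m := by linarith
    obtain ⟨u, hu⟩ : ∃ u : ℕ → ℝ, ∀ p, u p =
      ((pr x).factorization p : ℝ) * Real.log p / Real.log H := ⟨_, fun _ => rfl⟩
    obtain ⟨v, hv⟩ : ∃ v : ℝ, v = (Real.log H - Real.log m) / Real.log H := ⟨_, rfl⟩
    have hu0 : ∀ p ∈ T, 0 ≤ u p := by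
      intro p hp
      rw [hu]
      have h1 : (1 : ℝ) ≤ p := by exact_mod_cast (hT p hp).one_lt.le
      exact div_nonneg (mul_nonneg (Nat.cast_nonneg _) (Real.log_nonneg h1)) hlog.le
    have hv0 : 0 ≤ v := by
      rw [hv]
      exact div_nonneg (by linarith [Real.log_le_log hm0 hmH]) hlog.le
    have hv1 : v ≤ 1 := by
      rw [hv, div_le_one hlog]
      linarith [Real.log_nonneg hm1]
    have hvl : v * Real.log H = Real.log H - Real.log m := by
      rw [hv]
      field_simp
    have hul : (∑ p ∈ T, u p) * Real.log H = Real.log (tp T (pr x) : ℝ) := by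
      rw [smo_log_tp T hT, sum_mul]
      refine sum_congr rfl fun p _ => ?_
      rw [hu]
      field_simp
    have hprpos : (0 : ℝ) < pr x := by
      exact_mod_cast Nat.pos_of_ne_zero (del_pr_ne hA)
    have hlow : 3 * Real.log H - v * Real.log H - Real.log 2 ≤
        κ * Real.log H + (∑ p ∈ T, u p) * Real.log H := by
      rw [hvl, hul]
      have h1 : Real.log (m * H ^ 2) ≤ Real.log (2 * (pr x : ℝ)) := by
        refine Real.log_le_log (by positivity) ?_
        rw [hm, hH]
        exact_mod_cast hpr2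
      rw [Real.log_mul hm0.ne' (by positivity), Real.log_mul (by norm_num) hprpos.ne',
        Real.log_pow] at h1
      have h2 := Real.log_le_log hprpos hle
      rw [Real.log_mul (Real.rpow_pos_of_pos hH0 _).ne' (smo_tp_pos T hT _).ne',
        Real.log_rpow hH0] at h2
      push_cast at h1
      linarith
    have hup : (∑ p ∈ T, u p) + v ≤ 3 := by
      have h1 : (tp T (pr x) : ℝ) ≤ m * H ^ 2 := by
        rw [hm, hH]
        exact_mod_cast (del_tp_le T hT (del_pr_ne hA)).trans hpr1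
      have h2 := Real.log_le_log (smo_tp_pos T hT _) h1
      rw [Real.log_mul hm0.ne' (by positivity), Real.log_pow, ← hul] at h2
      push_cast at h2
      have h3 : ((∑ p ∈ T, u p) + v) * Real.log H ≤ 3 * Real.log H := by
        rw [add_mul, hvl]
        linarith
      exact le_of_mul_le_mul_right h3 hlog
    have hlow' : 3 - κ - (1 - κ) / 4 ≤ (∑ p ∈ T, u p) + v := by
      have h1 : Real.log 2 ≤ (1 - κ) / 4 * Real.log H := by
        rw [div_le_iff₀ hκ'] at hlog2
        linarith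
      have h3 : (3 - κ - (1 - κ) / 4) * Real.log H ≤ ((∑ p ∈ T, u p) + v) * Real.log H := by
        rw [add_mul]
        linarith
      exact le_of_mul_le_mul_right h3 hlog
    -- the index
    have hσ : ∀ p : T, ∃ i : Fin 3, (pr x).factorization p = (x i).natAbs.factorization p :=
      fun p => cell_sigma hA (hT p p.2)
    choose σ hσ using hσ
    obtain ⟨a, ha⟩ : ∃ a : Option T → ℕ, a = fun o => match o with
      | none => ⌊v / η⌋₊
      | some p => ⌊u p / η⌋₊ := ⟨_, rfl⟩
    have ha1 : a none = ⌊v / η⌋₊ := by rw [ha]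
    have ha2 : ∀ p : T, a (some p) = ⌊u p / η⌋₊ := by intro p; rw [ha]
    have hfl : ∀ r : ℝ, 0 ≤ r → (⌊r / η⌋₊ : ℝ) * η ≤ r ∧ r - η ≤ (⌊r / η⌋₊ : ℝ) * η := by
      intro r hr
      have h1 := Nat.floor_le (div_nonneg hr hη0.le)
      have h2 := Nat.lt_floor_add_one (r / η)
      rw [le_div_iff₀ hη0] at h1
      rw [div_lt_iff₀ hη0] at h2
      exact ⟨h1, by linarith⟩
    have hsumT : ∑ p : T, u p = ∑ p ∈ T, u p := sum_coe_sort T u
    have hasum : ((∑ o, a o : ℕ) : ℝ) * η ≤ 3 := by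
      rw [Fintype.sum_option, ha1]
      push_cast
      rw [add_mul, sum_mul]
      have h1 := (hfl v hv0).1
      have h2 : ∑ p : T, (a (some p) : ℝ) * η ≤ ∑ p : T, u p :=
        sum_le_sum fun p _ => by rw [ha2]; exact (hfl _ (hu0 p p.2)).1
      rw [hsumT] at h2
      linarith
    have haN : ∑ o, a o ≤ M * s := by
      have h1 : ((∑ o, a o : ℕ) : ℝ) * η ≤ ((M * s : ℕ) : ℝ) * η := hasum.trans hηN
      exact_mod_cast le_of_mul_le_mul_right h1 hη0
    have hmem : (σ, τ, a) ∈ 𝒜 := by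
      rw [h𝒜]
      simp only [mem_product, mem_univ, true_and, mem_filter, Fintype.mem_piFinset, mem_range]
      refine ⟨fun o => ?_, haN⟩
      have : a o ≤ ∑ o, a o := single_le_sum (f := a) (fun _ _ => Nat.zero_le _) (mem_univ o)
      omega
    have hW : ∀ p (hp : p ∈ T), (mkCD T η (σ, τ, a)).W p = (⌊u p / η⌋₊ : ℝ) * η := by
      intro p hp
      unfold mkCD
      simp only [hp, dite_true]
      rw [ha2]
    have hw : (mkCD T η (σ, τ, a)).w = (⌊v / η⌋₊ : ℝ) * η := by
      unfold mkCD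
      simp only
      rw [ha1]
    have hgood : (mkCD T η (σ, τ, a)).Good T ((1 - κ) / 2) := by
      refine ⟨fun p hp => ?_, ?_, ?_, ?_⟩
      · rw [hW p hp]
        positivity
      · rw [hw]
        positivity
      · rw [hw]
        exact (hfl v hv0).1.trans hv1
      · rw [hw]
        have h1 : ∑ p ∈ T, (u p - η) ≤ ∑ p ∈ T, (mkCD T η (σ, τ, a)).W p :=
          sum_le_sum fun p hp => by rw [hW p hp]; exact (hfl _ (hu0 p hp)).2
        rw [sum_sub_distrib, sum_const, nsmul_eq_mul] at h1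
        have h2 := (hfl v hv0).2
        have h3 : (T.card : ℝ) * η + η = (1 - κ) / 4 := by
          rw [← hηs, hs]
          push_cast
          ring
        linarith
    refine ⟨mkCD T η (σ, τ, a), mem_filter.2 ⟨mem_image_of_mem _ hmem, hgood⟩, hA, ?_, ?_⟩
    · intro p hp
      rw [hW p hp, ← hH]
      have h1 : (mkCD T η (σ, τ, a)).σ p = σ ⟨p, hp⟩ := by
        unfold mkCD
        simp only [hp, dite_true]
      rw [h1, ← hσ ⟨p, hp⟩]
      have h2 := mul_le_mul_of_nonneg_right (hfl _ (hu0 p hp)).1 hlog.le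
      refine h2.trans ?_
      rw [hu]
      apply le_of_eq
      field_simp
    · have h1 : (mkCD T η (σ, τ, a)).τ = τ := rfl
      rw [h1, hw, ← hH]
      have h2 : |((x τ : ℤ) : ℝ)| = m := by
        rw [hm, Nat.cast_natAbs]
        push_cast
        rfl
      rw [h2, ← Real.log_le_log_iff hm0 (Real.rpow_pos_of_pos hH0 _), Real.log_rpow hH0]
      have h3 := mul_le_mul_of_nonneg_right (hfl v hv0).1 hlog.le
      rw [hvl] at h3
      linarith

end Pool.Agent.H38.RB
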